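import Pool.Agent.Results.MP_667be6_lc.SplittingTreesInL

/-!
The former hand-in FailsAllColoursInL, now a corollary of SplittingTreesInL.
-/

open Cardinal Pool.Agent.Work.MP_667be6_lc

theorem Pool.Agent.Work.MP_667be6_lc.Parked.failsAllColoursInL (hV : VeqL.{0})
    (κ : Cardinal.{0}) (hκ : ℵ₀ < κ)
    (hT : Order.IsSuccLimit κ ∨ ∃ T : Set (Node κ), IsRegularTree T)
    (d : ℕ) (σ : Cardinal.{0}) (hd : 2 ≤ d) (hσ : 2 ≤ σ) (_hσκ : σ < κ) : ¬ HL d σ κ := by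
  obtain ⟨M, hM, -, h⟩ := Pool.Agent.Results.MP_667be6_lc.SplittingTreesInL.result hV κ hκ hT
  exact fun hHL => h d σ hd hσ (hHL _ fun _ => hM)
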